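import Pool.Agent.Helper60_AK.StmtF

/-! Squad AK, module L5: derivatives of F_k. -/

set_option autoImplicit false

open MeasureTheory Filter Topology Set Complex

namespace Pool.Agent.AK.H55

theorem isOpen_dom {Ω : Set C2} {ρ : C2 → ℝ} (h : SmoothDom Ω ρ) : IsOpen Ω := by
  rw [h.eq]
  exact isOpen_lt h.smooth.continuous continuous_const

theorem k0_le (k0 : ℕ) : ((k0 : ℕ) : WithTop ℕ∞) ≤ SM := by
  show (((k0 : ℕ∞)) : WithTop ℕ∞) ≤ ((⊤ : ℕ∞) : WithTop ℕ∞)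
  exact WithTop.coe_le_coe.2 le_top

theorem l5 (h1 : F1aStmt) (h0 : L0Stmt) (h4 : L4Stmt) : L5Stmt := by
  intro Ω ρ f k0 B V t0 c2 hS k
  obtain ⟨C, hC⟩ := h0 Ω ρ f k0 B V t0 c2 hS
  have hΩo : IsOpen Ω := isOpen_dom hS.dom
  have hρc : Continuous ρ := hS.dom.smooth.continuous
  obtain ⟨hFo, hnu, htau, hFk, hcau⟩ := h1 Ω ρ f hΩo hS.dom.smooth hS.bf.hol
  have hc2 : 0 < c2 := hS.geo.c2pos
  refine ⟨k.factorial * C / c2 ^ k, ?_⟩
  intro j hj t ht ht0 q hq hρ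
  set r : ℝ := c2 * Real.sqrt t with hr
  have hst : 0 < Real.sqrt t := Real.sqrt_pos.2 ht
  have hrpos : 0 < r := mul_pos hc2 hst
  -- membership
  have hmem : ∀ x ∈ V, ρ x < t / 2 → ∀ lam : ℂ, ‖lam‖ ≤ r →
      x + (t : ℂ) • nu ρ x + lam • tau ρ x ∈ Ω := by
    intro x hx hρx lam hlam
    have := hS.geo.disc x (subset_closure hx) t ht ht0 hρx.le lam hlam
    rw [hS.dom.eq]
    show ρ _ < 0
    linarith
  set V' : Set C2 := {x | x ∈ V ∧ ρ x < t / 2} with hV'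
  have hV'o : IsOpen V' := hS.geo.opn.inter (isOpen_lt hρc continuous_const)
  have hqV' : q ∈ V' := ⟨hq, hρ⟩
  -- the map Z
  let Z : C2 × ℝ → C2 := fun x => x.1 + (t : ℂ) • nu ρ x.1 + ((r : ℂ) * exp ((x.2 : ℂ) * I)) • tau ρ x.1
  let O1 : Set (C2 × ℝ) := {x | (x.1, t) ∈ FDom Ω ρ}
  have hO1 : IsOpen O1 := hFo.preimage (continuous_fst.prodMk continuous_const)
  have hZ : ContDiffOn ℝ SM Z O1 := by
    have e1 : ContDiffOn ℝ SM (fun x : C2 × ℝ => nu ρ x.1) O1 :=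
      hnu.comp contDiffOn_fst (fun x hx => hx.1)
    have e2 : ContDiffOn ℝ SM (fun x : C2 × ℝ => tau ρ x.1) O1 :=
      (htau.comp contDiff_fst).contDiffOn
    have e3 : ContDiff ℝ SM (fun x : C2 × ℝ => (r : ℂ) * exp ((x.2 : ℂ) * I)) :=
      contDiff_const.mul (((Complex.ofRealCLM.contDiff.comp contDiff_snd).mul contDiff_const).cexp)
    exact (contDiffOn_fst.add (e1.const_smul (t : ℂ))).add (e3.contDiffOn.smul e2)
  let O : Set (C2 × ℝ) := O1 ∩ Z ⁻¹' Ω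
  have hO : IsOpen O := hZ.continuousOn.isOpen_inter_preimage hO1 hΩo
  have hfZ : ContDiffOn ℝ SM (fun x => f (Z x)) O :=
    hS.bf.smooth.comp (hZ.mono inter_subset_left) (fun x hx => hx.2)
  have hexp : ∀ θ : ℝ, ‖exp ((θ : ℂ) * I)‖ = 1 := fun θ => Complex.norm_exp_ofReal_mul_I θ
  have hVO : V' ×ˢ Icc (0 : ℝ) (2 * Real.pi) ⊆ O := by
    rintro ⟨x, θ⟩ ⟨hx, -⟩
    have m1 := hmem x hx.1 hx.2
    refine ⟨⟨hS.geo.g2ne x (subset_closure hx.1), ?_⟩, ?_⟩
    · have := m1 0 (by simpa using hrpos.le)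
      simpa using this
    · refine m1 _ ?_
      rw [norm_mul, hexp, mul_one, Complex.norm_real, Real.norm_of_nonneg hrpos.le]
  let H : C2 → ℝ → ℂ := fun x θ => exp (-((k : ℂ) * θ * I)) *
    f (x + (t : ℂ) • nu ρ x + ((r : ℂ) * exp ((θ : ℂ) * I)) • tau ρ x)
  have hH : ContDiffOn ℝ SM (fun x : C2 × ℝ => H x.1 x.2) O := by
    have e3 : ContDiff ℝ SM (fun x : C2 × ℝ => exp (-((k : ℂ) * (x.2 : ℂ) * I))) :=
      ((contDiff_const.mul (Complex.ofRealCLM.contDiff.comp contDiff_snd)).mul contDiff_const).neg.cexp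
    exact e3.contDiffOn.mul hfZ
  have hpi : (0 : ℝ) ≤ 2 * Real.pi := by positivity
  obtain ⟨hI1, hI2, -⟩ := h4 V' 0 (2 * Real.pi) H O k0 hV'o hpi hO hVO (hH.of_le (k0_le k0))
  obtain ⟨hcont, hbound⟩ := hI2 j hj q hqV'
  -- pointwise bound
  have hpt : ∀ θ ∈ Icc (0 : ℝ) (2 * Real.pi), ‖iteratedFDeriv ℝ j (fun x => H x θ) q‖ ≤ C := by
    intro θ hθ
    have hqO : (q, θ) ∈ O := hVO ⟨hqV', hθ⟩
    have hat : ContDiffAt ℝ (j : WithTop ℕ∞) (fun x => f (Z (x, θ))) q := by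
      have h5 : ContDiffAt ℝ SM (fun x => f (Z x)) (q, θ) := hfZ.contDiffAt (hO.mem_nhds hqO)
      have h6 : ContDiffAt ℝ SM (fun x : C2 => (x, θ)) q := contDiffAt_id.prodMk contDiffAt_const
      exact (h5.comp q h6).of_le (k0_le j)
    have h7 : (fun x => H x θ) = exp (-((k : ℂ) * θ * I)) • (fun x => f (Z (x, θ))) := by
      funext x
      rfl
    rw [h7, iteratedFDeriv_const_smul_apply hat, norm_smul]
    have h8 : ‖exp (-((k : ℂ) * θ * I))‖ = 1 := by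
      have : -((k : ℂ) * θ * I) = ((-(k * θ) : ℝ) : ℂ) * I := by push_cast; ring
      rw [this]
      exact hexp _
    rw [h8, one_mul]
    refine hC j hj t ht ht0 q hq hρ ((r : ℂ) * exp ((θ : ℂ) * I)) ?_
    rw [norm_mul, hexp, mul_one, Complex.norm_real, Real.norm_of_nonneg hrpos.le]
  have hint : ‖iteratedFDeriv ℝ j (fun x => ∫ s in (0 : ℝ)..(2 * Real.pi), H x s) q‖ ≤ 2 * Real.pi * C := by
    refine hbound.trans ?_
    have h9 : ∫ s in (0 : ℝ)..(2 * Real.pi), ‖iteratedFDeriv ℝ j (fun x => H x s) q‖ ≤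
        ∫ s in (0 : ℝ)..(2 * Real.pi), C := by
      apply intervalIntegral.integral_mono_on hpi
      · apply ContinuousOn.intervalIntegrable
        rw [uIcc_of_le hpi]
        exact hcont.norm
      · exact intervalIntegrable_const
      · exact hpt
    refine h9.trans ?_
    rw [intervalIntegral.integral_const]
    simp
  -- the Cauchy formula near q
  have hev : (fun x => Fk ρ f k x t) =ᶠ[𝓝 q] ((k.factorial : ℂ) / (2 * (Real.pi : ℂ) * (r : ℂ) ^ k)) •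
      (fun x => ∫ s in (0 : ℝ)..(2 * Real.pi), H x s) := by
    filter_upwards [hV'o.mem_nhds hqV'] with x hx
    exact hcau k x t r hrpos (hmem x hx.1 hx.2)
  have hat2 : ContDiffAt ℝ (j : WithTop ℕ∞) (fun x => ∫ s in (0 : ℝ)..(2 * Real.pi), H x s) q :=
    (hI1.contDiffAt (hV'o.mem_nhds hqV')).of_le (by exact_mod_cast hj)
  rw [(hev.iteratedFDeriv ℝ j).eq_of_nhds, iteratedFDeriv_const_smul_apply hat2, norm_smul]
  have hcoef : ‖(k.factorial : ℂ) / (2 * (Real.pi : ℂ) * (r : ℂ) ^ k)‖ = k.factorial / (2 * Real.pi * r ^ k) := by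
    rw [norm_div, norm_mul, norm_mul, norm_pow, Complex.norm_real, Complex.norm_real,
      Real.norm_of_nonneg hrpos.le, Real.norm_of_nonneg Real.pi_pos.le]
    simp
  rw [hcoef]
  calc (k.factorial : ℝ) / (2 * Real.pi * r ^ k) *
        ‖iteratedFDeriv ℝ j (fun x => ∫ s in (0 : ℝ)..(2 * Real.pi), H x s) q‖
      ≤ (k.factorial : ℝ) / (2 * Real.pi * r ^ k) * (2 * Real.pi * C) := by
        apply mul_le_mul_of_nonneg_left hint (by positivity)
    _ = k.factorial * C / c2 ^ k / Real.sqrt t ^ k := by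
        rw [hr, mul_pow]
        field_simp

end Pool.Agent.AK.H55
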