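import Pool.Agent.Helper55_AK.L5

/-! Squad AK, module L6: derivatives of I_k[g]. -/

set_option autoImplicit false

open MeasureTheory Filter Topology Set Complex

namespace Pool.Agent.AK.H55

theorem int_exp_abs {a b : ℝ} (ha : a ≤ 0) (hb : 0 ≤ b) :
    ∫ L in a..b, Real.exp (-|L|) ≤ 2 := by
  have hc : Continuous fun L : ℝ => Real.exp (-|L|) := by fun_prop
  rw [← intervalIntegral.integral_add_adjacent_intervals (hc.intervalIntegrable a 0)
    (hc.intervalIntegrable 0 b)]
  have e1 : ∫ L in a..0, Real.exp (-|L|) = ∫ L in a..0, Real.exp L := by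
    apply intervalIntegral.integral_congr
    intro L hL
    rw [uIcc_of_le ha] at hL
    show Real.exp (-|L|) = Real.exp L
    rw [abs_of_nonpos hL.2, neg_neg]
  have e2 : ∫ L in (0 : ℝ)..b, Real.exp (-|L|) = ∫ L in (0 : ℝ)..b, Real.exp (-L) := by
    apply intervalIntegral.integral_congr
    intro L hL
    rw [uIcc_of_le hb] at hL
    show Real.exp (-|L|) = Real.exp (-L)
    rw [abs_of_nonneg hL.1]
  have e3 : ∫ L in (0 : ℝ)..b, Real.exp (-L) = 1 - Real.exp (-b) := by
    rw [intervalIntegral.integral_comp_neg (fun x => Real.exp x), integral_exp]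
    simp
  rw [e1, e2, e3, integral_exp, Real.exp_zero]
  have := Real.exp_pos a
  have := Real.exp_pos (-b)
  linarith

theorem l6 (h1 : F1aStmt) (h3 : L3Stmt) (h4 : L4Stmt) (h5 : L5Stmt) (_h : F3aStmt) : L6Stmt := by
  intro Ω ρ f k0 B V t0 c2 hS c0 hc0 k g hg
  have hΩo : IsOpen Ω := isOpen_dom hS.dom
  have hρc : Continuous ρ := hS.dom.smooth.continuous
  obtain ⟨hFo, hnu, htau, hFk, hcau⟩ := h1 Ω ρ f hΩo hS.dom.smooth hS.bf.hol
  obtain ⟨C5, hC5⟩ := h5 Ω ρ f k0 B V t0 c2 hS k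
  obtain ⟨C3, hC3⟩ := h3 V (k0 + 1) c0 hS.geo.cpt hc0 g hg (k + 1)
  obtain ⟨U, hUo, hVU, hcU⟩ := hc0
  refine ⟨2 ^ k0 * (max C5 0 * max C3 0) * 2, ?_⟩
  intro ε hε hεt
  have ht01 : t0 ≤ 1 := hS.geo.t0le
  have hε1 : ε ≤ 1 := hεt.le.trans ht01
  set a : ℝ := Real.log ε with ha
  set b : ℝ := Real.log (t0 / ε) with hb
  have ha0 : a ≤ 0 := Real.log_nonpos hε.le hε1
  have hb0 : 0 ≤ b := Real.log_nonneg (by rw [le_div_iff₀ hε]; linarith)
  have hab : a ≤ b := ha0.trans hb0
  -- the range of t = eps e^L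
  have ht : ∀ L ∈ Icc a b, ε ^ 2 ≤ ε * Real.exp L ∧ ε * Real.exp L ≤ t0 := by
    intro L hL
    constructor
    · have : ε ≤ Real.exp L := by
        rw [← Real.exp_log hε]
        exact Real.exp_le_exp.2 hL.1
      nlinarith
    · have : Real.exp L ≤ t0 / ε := by
        rw [← Real.exp_log (div_pos hS.geo.t0pos hε)]
        exact Real.exp_le_exp.2 hL.2
      rw [le_div_iff₀ hε] at this
      linarith
  have hVo : IsOpen (Veps ρ V ε) := hS.geo.opn.inter (isOpen_lt hρc continuous_const)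
  let m : C2 × ℝ → C2 × ℝ := fun x => (x.1, ε * Real.exp x.2)
  have hm : ContDiff ℝ SM m := contDiff_fst.prodMk (contDiff_const.mul contDiff_snd.exp)
  let O : Set (C2 × ℝ) := (m ⁻¹' FDom Ω ρ) ∩ {x | x.1 ∈ U}
  have hO : IsOpen O := (hFo.preimage hm.continuous).inter (hUo.preimage continuous_fst)
  let H : C2 → ℝ → ℂ := fun x L => Fk ρ f k x (ε * Real.exp L) * g ((L : ℂ) - c0 x)
  have hgs : ContDiff ℝ SM g := (hg.1.contDiff (n := SM)).restrict_scalars ℝ
  have hH1 : ContDiffOn ℝ SM (fun x : C2 × ℝ => Fk ρ f k x.1 (ε * Real.exp x.2)) O :=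
    (hFk k).comp hm.contDiffOn (fun x hx => hx.1)
  have hH2 : ContDiffOn ℝ ((k0 + 1 : ℕ) : WithTop ℕ∞) (fun x : C2 × ℝ => g ((x.2 : ℂ) - c0 x.1)) O := by
    have e1 : ContDiffOn ℝ ((k0 + 1 : ℕ) : WithTop ℕ∞) (fun x : C2 × ℝ => c0 x.1) O :=
      hcU.comp contDiffOn_fst (fun x hx => hx.2)
    have e2 : ContDiffOn ℝ ((k0 + 1 : ℕ) : WithTop ℕ∞) (fun x : C2 × ℝ => (x.2 : ℂ)) O :=
      (Complex.ofRealCLM.contDiff.comp contDiff_snd).contDiffOn
    exact (hgs.of_le (k0_le _)).comp_contDiffOn (e2.sub e1)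
  have hH : ContDiffOn ℝ ((k0 + 1 : ℕ) : WithTop ℕ∞) (fun x : C2 × ℝ => H x.1 x.2) O :=
    (hH1.of_le (k0_le _)).mul hH2
  have hVO : (Veps ρ V ε) ×ˢ Icc a b ⊆ O := by
    rintro ⟨x, L⟩ ⟨hx, hL⟩
    obtain ⟨ht1, ht2⟩ := ht L hL
    have hcl : x ∈ closure V := subset_closure hx.1
    refine ⟨⟨hS.geo.g2ne x hcl, ?_⟩, hVU hcl⟩
    have htpos : 0 < ε * Real.exp L := by positivity
    have hd := hS.geo.disc x hcl (ε * Real.exp L) htpos ht2 (by
      have := hx.2
      linarith) 0 (by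
      rw [norm_zero]
      have := hS.geo.c2pos
      positivity)
    rw [zero_smul, add_zero] at hd
    rw [hS.dom.eq]
    show ρ _ < 0
    show ρ (x + ((ε * Real.exp L : ℝ) : ℂ) • nu ρ x) < 0
    linarith
  obtain ⟨hI1, hI2, -⟩ := h4 (Veps ρ V ε) a b H O (k0 + 1) hVo hab hO hVO hH
  have hIk : Ik ρ f c0 t0 ε k g = ((ε : ℂ) ^ k) • fun p => ∫ L in a..b, H p L := by
    funext p
    rfl
  constructor
  · rw [hIk]
    exact hI1.const_smul ((ε : ℂ) ^ k)
  · intro j hj q hq
    obtain ⟨hcont, hbound⟩ := hI2 j (by omega) q hq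
    have hat2 : ContDiffAt ℝ (j : WithTop ℕ∞) (fun p => ∫ L in a..b, H p L) q :=
      (hI1.contDiffAt (hVo.mem_nhds hq)).of_le (by exact_mod_cast (by omega : j ≤ k0 + 1))
    rw [hIk, iteratedFDeriv_const_smul_apply hat2, norm_smul, norm_pow, Complex.norm_real,
      Real.norm_of_nonneg hε.le]
    -- pointwise estimate
    have hpt : ∀ L ∈ Icc a b, ‖iteratedFDeriv ℝ j (fun x => H x L) q‖ ≤
        (2 ^ k0 * (max C5 0 * max C3 0) / Real.sqrt ε ^ k) * Real.exp (-|L|) := by
      intro L hL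
      obtain ⟨ht1, ht2⟩ := ht L hL
      have htpos : 0 < ε * Real.exp L := by positivity
      have hsl : ContDiffOn ℝ SM (fun x : C2 => (x, L)) (Veps ρ V ε) :=
        contDiffOn_id.prodMk contDiffOn_const
      have hmaps : MapsTo (fun x : C2 => (x, L)) (Veps ρ V ε) O := fun x hx => hVO ⟨hx, hL⟩
      have a1 : ContDiffOn ℝ (j : WithTop ℕ∞) (fun x : C2 => Fk ρ f k x (ε * Real.exp L)) (Veps ρ V ε) :=
        (hH1.comp hsl hmaps).of_le (k0_le j)
      have a2 : ContDiffOn ℝ (j : WithTop ℕ∞) (fun x : C2 => g ((L : ℂ) - c0 x)) (Veps ρ V ε) :=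
        (hH2.comp (hsl.of_le (k0_le (k0 + 1))) hmaps).of_le (by exact_mod_cast (by omega : j ≤ k0 + 1))
      have a3 := norm_iteratedFDerivWithin_mul_le a1 a2 hVo.uniqueDiffOn hq (le_refl (j : WithTop ℕ∞))
      rw [iteratedFDerivWithin_of_isOpen j hVo hq] at a3
      refine a3.trans ?_
      have hsq : Real.sqrt (ε * Real.exp L) = Real.sqrt ε * Real.exp (L / 2) := by
        rw [Real.sqrt_mul hε.le, Real.exp_half]
      have hse : 0 < Real.sqrt ε := Real.sqrt_pos.2 hε
      have hρq : ρ q < ε * Real.exp L / 2 := by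
        have := hq.2
        linarith
      have b1 : ∀ i ∈ Finset.range (j + 1),
          (j.choose i : ℝ) * ‖iteratedFDerivWithin ℝ i (fun x : C2 => Fk ρ f k x (ε * Real.exp L)) (Veps ρ V ε) q‖ *
            ‖iteratedFDerivWithin ℝ (j - i) (fun x : C2 => g ((L : ℂ) - c0 x)) (Veps ρ V ε) q‖ ≤
          (j.choose i : ℝ) * (max C5 0 * max C3 0 / Real.sqrt ε ^ k * Real.exp (-|L|)) := by
        intro i hi
        rw [Finset.mem_range] at hi
        rw [iteratedFDerivWithin_of_isOpen i hVo hq, iteratedFDerivWithin_of_isOpen (j - i) hVo hq, mul_assoc]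
        apply mul_le_mul_of_nonneg_left _ (by positivity)
        have c1 := hC5 i (by omega) (ε * Real.exp L) htpos ht2 q hq.1 hρq
        have c2' := hC3 (j - i) (by omega) L q hq.1
        have d1 : C5 / Real.sqrt (ε * Real.exp L) ^ k ≤ max C5 0 / Real.sqrt (ε * Real.exp L) ^ k := by
          apply div_le_div_of_nonneg_right (le_max_left _ _) (by positivity)
        have d2 : C3 * Real.exp (-(((k + 1 : ℕ) : ℝ) * |L|)) ≤ max C3 0 * Real.exp (-(((k + 1 : ℕ) : ℝ) * |L|)) :=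
          mul_le_mul_of_nonneg_right (le_max_left _ _) (Real.exp_pos _).le
        calc ‖iteratedFDeriv ℝ i (fun x : C2 => Fk ρ f k x (ε * Real.exp L)) q‖ *
              ‖iteratedFDeriv ℝ (j - i) (fun x : C2 => g ((L : ℂ) - c0 x)) q‖
            ≤ (max C5 0 / Real.sqrt (ε * Real.exp L) ^ k) *
              (max C3 0 * Real.exp (-(((k + 1 : ℕ) : ℝ) * |L|))) :=
              mul_le_mul (c1.trans d1) (c2'.trans d2) (norm_nonneg _) (by positivity)
          _ = max C5 0 * max C3 0 / Real.sqrt ε ^ k *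
              ((Real.exp (L / 2) ^ k)⁻¹ * Real.exp (-(((k + 1 : ℕ) : ℝ) * |L|))) := by
              rw [hsq, mul_pow]
              field_simp
          _ ≤ max C5 0 * max C3 0 / Real.sqrt ε ^ k * Real.exp (-|L|) := by
              apply mul_le_mul_of_nonneg_left _ (by positivity)
              rw [← Real.exp_nat_mul, ← Real.exp_neg, ← Real.exp_add]
              apply Real.exp_le_exp.2
              push_cast
              have h1 : -|L| ≤ L := neg_abs_le L
              have h2 : (0 : ℝ) ≤ k := Nat.cast_nonneg k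
              have h3 : 0 ≤ |L| := abs_nonneg L
              nlinarith [mul_nonneg h2 h3, mul_nonneg h2 (by linarith : 0 ≤ L + |L|)]
      refine (Finset.sum_le_sum b1).trans ?_
      rw [← Finset.sum_mul]
      have e1 : ∑ i ∈ Finset.range (j + 1), (j.choose i : ℝ) = 2 ^ j := by
        exact_mod_cast Nat.sum_range_choose j
      rw [e1]
      have e2 : (2 : ℝ) ^ j ≤ 2 ^ k0 := pow_le_pow_right₀ (by norm_num) hj
      calc (2 : ℝ) ^ j * (max C5 0 * max C3 0 / Real.sqrt ε ^ k * Real.exp (-|L|))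
          ≤ 2 ^ k0 * (max C5 0 * max C3 0 / Real.sqrt ε ^ k * Real.exp (-|L|)) :=
            mul_le_mul_of_nonneg_right e2 (by positivity)
        _ = (2 ^ k0 * (max C5 0 * max C3 0) / Real.sqrt ε ^ k) * Real.exp (-|L|) := by ring
    have hint : ∫ L in a..b, ‖iteratedFDeriv ℝ j (fun x => H x L) q‖ ≤
        (2 ^ k0 * (max C5 0 * max C3 0) / Real.sqrt ε ^ k) * 2 := by
      have h9 : ∫ L in a..b, ‖iteratedFDeriv ℝ j (fun x => H x L) q‖ ≤
          ∫ L in a..b, (2 ^ k0 * (max C5 0 * max C3 0) / Real.sqrt ε ^ k) * Real.exp (-|L|) := by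
        apply intervalIntegral.integral_mono_on hab
        · apply ContinuousOn.intervalIntegrable
          rw [uIcc_of_le hab]
          exact hcont.norm
        · have : Continuous fun L : ℝ => (2 ^ k0 * (max C5 0 * max C3 0) / Real.sqrt ε ^ k) * Real.exp (-|L|) := by
            fun_prop
          exact this.intervalIntegrable a b
        · exact hpt
      refine h9.trans ?_
      rw [intervalIntegral.integral_const_mul]
      exact mul_le_mul_of_nonneg_left (int_exp_abs ha0 hb0) (by positivity)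
    have hse : 0 < Real.sqrt ε := Real.sqrt_pos.2 hε
    have hsq2 : ε = Real.sqrt ε * Real.sqrt ε := (Real.mul_self_sqrt hε.le).symm
    calc ε ^ k * ‖iteratedFDeriv ℝ j (fun p => ∫ L in a..b, H p L) q‖
        ≤ ε ^ k * ((2 ^ k0 * (max C5 0 * max C3 0) / Real.sqrt ε ^ k) * 2) :=
          mul_le_mul_of_nonneg_left (hbound.trans hint) (by positivity)
      _ = 2 ^ k0 * (max C5 0 * max C3 0) * 2 * Real.sqrt ε ^ k := by
          have h8 : ε ^ k = Real.sqrt ε ^ k * Real.sqrt ε ^ k := by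
            rw [← mul_pow, ← hsq2]
          rw [h8]
          field_simp

end Pool.Agent.AK.H55
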